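import Mathlib
import Pool.Agent.Lib.MP_c00cb7_lc.Main

/-!
# The Baire property without Lebesgue measurability, `ω₁` inaccessible by reals

From a Ramsey cardinal we obtain a countable well-founded model of `ZF + DC` (up to isomorphism: a
countable transitive model; in particular its natural numbers are standard) in which every set of
reals has the Baire property, not every set of reals is Lebesgue measurable, and `ω₁` is
inaccessible by reals.

The definitions are in `Pool.Agent.Lib.MP_c00cb7_lc.MDefs` (Baire property, measurability, inner
models, `L[x]`, Ramsey cardinals), `Pool.Agent.Lib.SymZF.ZF` (`ZF`) and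
`Pool.Agent.Lib.SymZF.IntDefs` (functions, `ω`).
-/

set_option autoImplicit false

namespace Pool.Agent.Results.MP_c00cb7_lc.BaireNotLebesgue

open Pool.Agent.Lib.SymZF Pool.Agent.Lib.BPLM

/-- If there is a Ramsey cardinal then there is a countable well-founded model `(M, E)` of `ZF + DC`
in which all sets of reals have the Baire property, not all sets of reals are Lebesgue
measurable, and `ω₁` is inaccessible by reals. -/
theorem result (κ : Cardinal.{0}) (h1 : κ.IsInaccessible) (h2 : RamseyCard κ) :
    ∃ (M : Type) (E : M → M → Prop), Countable M ∧ WellFounded E ∧ IsZF E ∧ IsDC E ∧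
      AllBP E ∧ ¬ (∀ A, IsLM E A) ∧ OmegaOneInacc E :=
  main κ h1 h2

end Pool.Agent.Results.MP_c00cb7_lc.BaireNotLebesgue
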